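import Pool.Agent.Helper26K9.XI.Crit
import Pool.Agent.W287.HK.Basic
import Pool.Agent.W571.HK.Cls
import Pool.Agent.W53.HK.Fp
import Pool.Agent.W366.HK.Fpr
import Pool.Agent.W585.HK.LAT
import Pool.Agent.W692.HK.Ker
import Pool.Agent.W584.HK.CNT
import Pool.Agent.W856.HK.Dec
import Pool.Agent.W636.HK.Gauss
import Pool.Agent.W348.HK.Pois

/-!
# Nonvanishing of the `L`-function in the Beilinson–Bloch conjecture, in every degree: the twists by
`i D`

Let `K = ℚ(i)`, `R = ℤ[i]`.  Every odd squarefree element of `R` is, up to a unit, the product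
`D = ∏ p ∈ S, p` for a unique finite set `S` of primes of `R` congruent to `1` modulo `2 + 2 i`.  The
quadratic twists of `y² = x³ - x` over `K` with good reduction outside `S` and `1 + i` are the twists
by `D'`, `i D'`, `(1 + i) D'` and `(1 - i) D'` with `D'` dividing `D`.  We consider the elliptic curve
`E_S : i D y² = x³ - x`.  It has complex multiplication by `R`.  Its Hecke character `ψ_S` is given by
`ψ_S((α)) = (i / α) (α / D) α` for `α ≡ 1 mod 2 + 2 i`, where `(α / D)` is the product of the quadratic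
residue symbols `(α / p)`, `p ∈ S` (by the reciprocity law `(α / D) = (D / α)`), and `(i / α)` is
`(-1) ^ ((N(α) - 1) / 4)`; `ψ_S` vanishes at the ideals that are not prime to `1 + i`.

For `X = E_S ^ N` the representation `H^(2k-1)(X)` of `Gal(Kbar / K)` is a direct sum of the characters
`ψ_S ^ a * conj ψ_S ^ b`, `a + b = 2 k - 1`, and for `X = E_S ^ N × E_S' ^ M` of such characters of
`E_S` and `E_S'`.

Consider the graph with the set of vertices `S ∪ {i}`, where two primes of `S` are joined if they are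
not squares modulo each other and `p ∈ S` is joined with `i` if `i` is not a square modulo `p`, that is,
if `N(p) ≡ 5 mod 8`.  We call `S` good if this graph has an odd number of spanning trees.  By the
matrix tree theorem this means that the following matrix over the field with two elements is
invertible: the entry at `(p, q)`, `p ≠ q`, is `1` if `p` and `q` are joined and `0` otherwise, and the
entry at `(p, p)` is the number of the neighbours of `p`.  For example `∅` is good, `{p}` is good if
and only if `N(p) ≡ 5 mod 8`, and `{p, q}` is good if and only if either `N(p) ≡ N(q) ≡ 5 mod 8` or `p` is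
not a square modulo `q` and one of `N(p)`, `N(q)` is congruent to `5` modulo `8`.

Theorem: let `S` be good.

* If `N(D) ≡ 5 mod 8`, the function `L(ψ_S ^ a * conj ψ_S ^ b, s)` does not vanish at the centre
  `s = k`, for all `k ≥ 1` and all `a + b = 2 k - 1`.
* In general this holds for all `k ≥ 1` and all `a + b = 2 k - 1` with `|a - b| ≡ 1 mod 4`; in
  particular `L(E_S / K, s)` does not vanish at `s = 1`.

In particular `L(H^(2k-1)(X / K), s)` is not zero at `s = k` for every `k ≥ 1` and every
`X = E_S ^ N × E_S' ^ M` with good `S`, `S'` such that `N(D) ≡ N(D') ≡ 5 mod 8`: the Beilinson–Bloch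
conjecture predicts that all the groups `CH^k(X)_hom` are torsion.

For `S = ∅` the restriction in the second part is necessary: the root number of
`ψ_∅ ^ a * conj ψ_∅ ^ b` is `-1` and `L` vanishes at `s = k` if `|a - b| ≡ 3 mod 4`.

The proof gives the exact `2`-adic valuation of the algebraic part of the central values.
-/

set_option autoImplicit false

open Complex IsDedekindDomain

namespace Pool.Agent.Results.MP_b8021b_nt.TwistsByIEveryDegree

/-- The norm `N(J)` of an ideal (`0` for the zero ideal, whose residue ring is infinite). -/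
noncomputable def norm {R : Subring ℂ} (J : Ideal R) : ℝ := (Nat.card (R ⧸ J) : ℝ)

open Classical in
/-- The quadratic residue symbol `(α / p)` for a prime `p` of `R`: it is `0` if `p` divides `α`, `1` if
`α` is a nonzero square modulo `p`, and `-1` if `α` is not a square modulo `p`. -/
noncomputable def symbol {R : Subring ℂ} (p α : R) : ℤ :=
  if α ∈ Ideal.span {p} then 0 else if ∃ β : R, β * β - α ∈ Ideal.span {p} then 1 else -1

open Classical in
/-- The symbol `(i / α) = (-1) ^ ((N(α) - 1) / 4)` for `α ≡ 1 mod 2 + 2 i` (then `N(α) ≡ 1 mod 4`): it is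
`-1` if `N(α) ≡ 5 mod 8`, and `1` otherwise. -/
noncomputable def symbolI {R : Subring ℂ} (α : R) : ℤ :=
  if Nat.card (R ⧸ Ideal.span {α}) % 8 = 5 then -1 else 1

/-- `ψ`, a function on the ideals of `R`, is the Hecke character of
`E_S : i (∏ p ∈ S, p) y² = x³ - x`; here `f = 2 + 2 i`. -/
def IsHeckeCharacter {R : Subring ℂ} (f : R) (S : Finset R) (ψ : Ideal R → ℂ) : Prop :=
  (∀ I J : Ideal R, ψ (I * J) = ψ I * ψ J) ∧
  (∀ α : R, α - 1 ∈ Ideal.span {f} →
    ψ (Ideal.span {α}) = (symbolI α * ∏ p ∈ S, symbol p α : ℤ) * α) ∧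
  ∀ J : Ideal R, (¬ ∃ α : R, α - 1 ∈ Ideal.span {f} ∧ J = Ideal.span {α}) → ψ J = 0

open Classical in
/-- The finite set `S` of primes congruent to `1` modulo `f = 2 + 2 i` is good: there is no nonempty
subset `V` of `S` with `(i / p) * ∏ q ∈ S \ V, (p / q) = 1` for all `p ∈ V` and `∏ q ∈ V, (p / q) = 1` for
all `p ∈ S \ V`.  (The matrix described above has no kernel; `V` is the support of the vector.) -/
def IsGood {R : Subring ℂ} (f : R) (S : Finset R) : Prop :=
  (∀ p ∈ S, Prime p ∧ p - 1 ∈ Ideal.span {f}) ∧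
  ∀ V ⊆ S, V.Nonempty → (∃ p ∈ V, symbolI p * ∏ q ∈ S \ V, symbol q p = -1) ∨
    (∃ p ∈ S \ V, ∏ q ∈ V, symbol q p = -1)

/-- **Main theorem.** Let `R = ℤ[i]`, `f = 2 + 2 i` and let `S 1, ..., S n` be finite sets of primes
that are good.  Then the Hecke characters `ψ j` of the elliptic curves `i D j y² = x³ - x`,
`D j = ∏ p ∈ S j, p`, exist, and for all `k ≥ 1` and all `a j`, `b j` with `a j + b j = 2 k - 1` such that
for each `j` we have `N(D j) ≡ 5 mod 8` or `|a j - b j| ≡ 1 mod 4`, the `L`-function of the direct sum of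
the `ψ j ^ a j * conj (ψ j) ^ b j` extends to an entire function that is not zero at the centre
`s = k`. -/
theorem result (R : Subring ℂ) (hR : ∀ z : ℂ, z ∈ R ↔ ∃ x y : ℤ, z = x + y * I)
    (f : R) (hf : (f : ℂ) = 2 + 2 * I) (n : ℕ) (S : Fin n → Finset R) (hS : ∀ j, IsGood f (S j)) :
    ∃ ψ : Fin n → Ideal R → ℂ, (∀ j, IsHeckeCharacter f (S j) (ψ j)) ∧
      ∀ (k : ℕ) (a b : Fin n → ℕ), 1 ≤ k → (∀ j, a j + b j = 2 * k - 1) →
        (∀ j, Nat.card (R ⧸ Ideal.span {∏ p ∈ S j, p}) % 8 = 5 ∨
          ((a j : ℤ) - b j).natAbs % 4 = 1) →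
        ∃ L : ℂ → ℂ, Differentiable ℂ L ∧
          (∀ s : ℂ, (k : ℝ) + 1 / 2 < s.re → HasProd (fun P : HeightOneSpectrum R =>
            ∏ j, (1 - ψ j P.asIdeal ^ a j * (starRingEnd ℂ) (ψ j P.asIdeal) ^ b j *
              (norm P.asIdeal : ℂ) ^ (-s))⁻¹) (L s)) ∧
          L k ≠ 0 := by
  classical
  have hbasic := Pool.Agent.W287.HK.h_basic
  have hcls := Pool.Agent.W571.HK.h_cls hbasic
  have hfp := Pool.Agent.W53.HK.h_fp hbasic hcls
  have hfpr := Pool.Agent.W366.HK.h_fpr hbasic hcls
  have hlat := Pool.Agent.W585.HK.h_lat hbasic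
  have hker := Pool.Agent.W692.HK.h_ker hbasic hcls hfpr
  have hcnt := Pool.Agent.W584.HK.h_cnt hbasic hcls hfpr hlat hker
  have hdec := Pool.Agent.W856.HK.h_dec hbasic
  have hgauss := Pool.Agent.W636.HK.h_gauss hbasic hfp
  have hpois := Pool.Agent.W348.HK.h_pois hbasic
  have htheta := Pool.Agent.TH936.HK.h_theta hbasic hfp hdec hgauss hpois hcnt
  have hafe := Pool.Agent.TH936.HK.h_afe hbasic hfp hcnt hgauss htheta
  have hff : f = Pool.Agent.Y690.NV.ff hR :=
    Subtype.ext (by rw [hf, Pool.Agent.Y690.NV.ff_coe])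
  subst hff
  have hpr : ∀ j, ∀ p ∈ S j, Prime p ∧ Pool.Agent.Y690.AW.Pri p := by
    intro j p hp
    obtain ⟨h1, h2⟩ := (hS j).1 p hp
    exact ⟨h1, (Pool.Agent.Y690.AW.pri_iff hR p).mp h2⟩
  have hadm : ∀ j, Pool.Agent.Helper26K9.XI.AdmI (S j) := fun j =>
    Pool.Agent.Helper26K9.XI.admI_of hR hbasic (hpr j) (hS j).2
  refine ⟨fun j => Pool.Agent.Helper26K9.XI.tI hR 1 (S j), fun j => ⟨?_, fun α hα => ?_,
    fun J hJ => ?_⟩, fun k a b hk hab hc => ?_⟩
  · exact (Pool.Agent.Helper26K9.XI.hc_tI hR hbasic 1 (S j) (hadm j).1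
      (Pool.Agent.Y690.AW.dst_of hR (hadm j).1)).mul
  · have h := Pool.Agent.Helper26K9.XI.tI_gen hR 1 (S j) hα
    rw [pow_one] at h
    refine h.trans ?_
    rw [Int.cast_mul]
    rfl
  · exact Pool.Agent.Helper26K9.XI.tI_zero hR (S j) 1 hJ
  · exact Pool.Agent.Helper26K9.XI.familyI hR hbasic hfp hcnt hdec hafe n hadm k hk a b hab
      fun j => Pool.Agent.Helper26K9.XI.CI_of hR hbasic (fun p hp => (hpr j p hp).2) (hc j).symm

end Pool.Agent.Results.MP_b8021b_nt.TwistsByIEveryDegree
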